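import Mathlib
import Pool.Agent.W777.FV.Det2
import Pool.Agent.H715R2.CountableValues

/-! # Forms with few small values at integer points of bounded height -/

open Filter Topology Matrix H715R2

namespace Pool.Agent.W777.FV

variable {d : ℕ}

/-- the values of absolute value `< T` at nonzero integer points of height at most `N` -/
def VN (g : Matrix (Fin d) (Fin d) ℝ) (T : ℝ) (N : ℕ) : Set ℝ :=
  {t | ∃ p : Fin d → ℤ, p ≠ 0 ∧ (∀ i, |p i| ≤ (N : ℤ)) ∧ FF g (iR p) = t ∧ |t| < T}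

lemma finite_VN (g : Matrix (Fin d) (Fin d) ℝ) (T : ℝ) (N : ℕ) : (VN g T N).Finite := by
  have h1 : (Set.Icc (fun _ : Fin d => -(N : ℤ)) (fun _ => (N : ℤ))).Finite := Set.finite_Icc _ _
  refine (h1.image (fun p => FF g (iR p))).subset ?_
  rintro t ⟨p, -, hp, rfl, -⟩
  exact ⟨p, ⟨fun i => (abs_le.1 (hp i)).1, fun i => (abs_le.1 (hp i)).2⟩, rfl⟩

/-- separated directions with sum zero -/
lemma exists_dir (hd : 2 ≤ d) (s : ℝ) : ∃ Θ : Fin d → ℝ, ∑ i, Θ i = 0 ∧
    ∀ i j, i ≠ j → s ≤ |Θ i - Θ j| := by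
  classical
  obtain ⟨θ, hθ, hsum, -⟩ := exists_theta (by omega : 0 < d) (⟨0, by omega⟩ : Fin d)
    ⟨1, by omega⟩ (by simp)
  set Λ : ℝ := ∑ p : Fin d × Fin d, |s| / |θ p.1 - θ p.2| with hΛ
  have hΛ0 : 0 ≤ Λ := Finset.sum_nonneg fun p _ => by positivity
  refine ⟨fun i => Λ * θ i, by rw [← Finset.mul_sum, hsum, mul_zero], fun i j hij => ?_⟩
  have h1 : 0 < |θ i - θ j| := abs_pos.2 (sub_ne_zero.2 fun h => hij (hθ h))
  have h2 : |s| / |θ i - θ j| ≤ Λ :=
    Finset.single_le_sum (f := fun p : Fin d × Fin d => |s| / |θ p.1 - θ p.2|)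
      (fun p _ => by positivity) (Finset.mem_univ (i, j))
  rw [← mul_sub, abs_mul, abs_of_nonneg hΛ0]
  rw [div_le_iff₀ h1] at h2
  exact (le_abs_self s).trans h2

lemma isClosed_hasNu (ν : ℝ) : IsClosed {h : Matrix (Fin d) (Fin d) ℝ | HasNu h ν} := by
  have h1 : {h : Matrix (Fin d) (Fin d) ℝ | HasNu h ν} =
      ⋂ (m : Fin d → ℤ) (_ : m ≠ 0), {h | ν ≤ |FF h (iR m)|} := by
    ext h
    simp [HasNu]
  rw [h1]
  exact isClosed_iInter fun m => isClosed_iInter fun _ =>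
    isClosed_le continuous_const (continuous_abs.comp (continuous_FF (iR m)))

/-- entries of the reducing integer matrix -/
lemma gamma_bound {g : Matrix (Fin d) (Fin d) ℝ} (hg : g.det ≠ 0) (R M : ℝ) (hR : 0 ≤ R)
    (hM : 0 ≤ M) (G : ℝ) (hGe : ∀ i j, |g⁻¹ i j| ≤ G) (a : Fin d → ℝ)
    (γ : Matrix (Fin d) (Fin d) ℤ) (m : Fin d → ℤ) (E : ℝ)
    (ha : ∀ i, 0 < a i) (haE : ∀ i, (a i)⁻¹ ≤ E) (hy : ∀ i j, |(diagonal a * g * zR γ) i j| ≤ R)
    (hm : ∀ i, |(m i : ℝ)| ≤ M) (i : Fin d) :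
    |((γ *ᵥ m) i : ℝ)| ≤ (d ^ 2 * (R * M) + 1) * (1 + G) * E := by
  classical
  have hu : IsUnit g.det := isUnit_iff_ne_zero.2 hg
  have hG0 : 0 ≤ G := (abs_nonneg _).trans (hGe i i)
  set y := diagonal a * g * zR γ with hydef
  have hE0 : 0 ≤ E := (inv_pos.2 (ha i)).le.trans (haE i)
  have h1 : zR γ *ᵥ iR m = g⁻¹ *ᵥ (diagonal (fun i => (a i)⁻¹) *ᵥ (y *ᵥ iR m)) := by
    have h2 : diagonal (fun i => (a i)⁻¹) * diagonal a = (1 : Matrix (Fin d) (Fin d) ℝ) := by
      rw [diagonal_mul_diagonal, ← diagonal_one]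
      congr 1
      funext i
      exact inv_mul_cancel₀ (ha i).ne'
    rw [mulVec_mulVec, mulVec_mulVec, hydef]
    have h3 : g⁻¹ * diagonal (fun i => (a i)⁻¹) * (diagonal a * g * zR γ) = zR γ := by
      calc g⁻¹ * diagonal (fun i => (a i)⁻¹) * (diagonal a * g * zR γ)
          = g⁻¹ * (diagonal (fun i => (a i)⁻¹) * diagonal a) * g * zR γ := by
            simp only [Matrix.mul_assoc]
        _ = _ := by rw [h2, Matrix.mul_one, Matrix.nonsing_inv_mul _ hu, Matrix.one_mul]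
    rw [h3]
  have h4 : ((γ *ᵥ m) i : ℝ) = (zR γ *ᵥ iR m) i := by rw [zR_mulVec_iR]; rfl
  rw [h4, h1]
  have h5 : ∀ k, |(y *ᵥ iR m) k| ≤ d * (R * M) := by
    intro k
    rw [mulVec, dotProduct]
    refine (Finset.abs_sum_le_sum_abs _ _).trans ?_
    refine (Finset.sum_le_sum (g := fun _ => R * M) fun l _ => ?_).trans (le_of_eq ?_)
    · rw [abs_mul]
      exact mul_le_mul (hy k l) (hm l) (abs_nonneg _) hR
    · rw [Finset.sum_const, Finset.card_univ, Fintype.card_fin, nsmul_eq_mul]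
  have h6 : ∀ k, |(diagonal (fun i => (a i)⁻¹) *ᵥ (y *ᵥ iR m)) k| ≤ E * (d * (R * M)) := by
    intro k
    rw [mulVec_diagonal, abs_mul, abs_of_pos (inv_pos.2 (ha k))]
    exact mul_le_mul (haE k) (h5 k) (abs_nonneg _) hE0
  rw [mulVec, dotProduct]
  refine (Finset.abs_sum_le_sum_abs _ _).trans ?_
  refine (Finset.sum_le_sum (g := fun _ => G * (E * (d * (R * M)))) fun l _ => ?_).trans ?_
  · rw [abs_mul]
    exact mul_le_mul (hGe i l) (h6 l) (abs_nonneg _) hG0
  · rw [Finset.sum_const, Finset.card_univ, Fintype.card_fin, nsmul_eq_mul]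
    have h7 : 0 ≤ d ^ 2 * (R * M) := by positivity
    have h8 : (d : ℝ) * (G * (E * (d * (R * M)))) = (d ^ 2 * (R * M)) * G * E := by ring
    rw [h8]
    refine mul_le_mul_of_nonneg_right ?_ hE0
    nlinarith

/-- the key pigeonhole step -/
theorem few_values (hd : 2 ≤ d) {V ν T : ℝ} (hV : 0 < V) (hν : 0 < ν)
    (hT : ∀ h : Matrix (Fin d) (Fin d) ℝ, |h.det| = V →
      ∃ m : Fin d → ℤ, m ≠ 0 ∧ |FF h (iR m)| < T) :
    ∃ κ : ℝ, 0 < κ ∧ ∃ C : ℝ, 0 < C ∧ ∀ g : Matrix (Fin d) (Fin d) ℝ, |g.det| = V → HasNu g ν →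
      ∀ G : ℝ, (∀ i j, |g⁻¹ i j| ≤ G) → ∀ N : ℕ, C * (1 + G) ^ 2 ≤ N →
      ((VN g T N).ncard : ℝ) ^ (d ^ 2 - d + 1) < κ * Real.log N →
      ∃ (δ : Matrix (Fin d) (Fin d) ℤ) (c : Fin d → ℝ), Function.Injective c ∧
        g * zR δ = diagonal c * g := by
  classical
  have hd0 : 0 < d := by omega
  set i₀ : Fin d := ⟨0, hd0⟩ with hi₀
  obtain ⟨Θ, hΘsum, hΘ⟩ := exists_dir hd (Real.log 9)
  obtain ⟨R, hR⟩ := exists_bound hd0 V ν hV hν
  obtain ⟨r, hr0, hvec⟩ := exists_vec_gen hd0 V ν T hV hν hT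
  set R' : ℝ := max R 0 with hR'
  set 𝒦 : Set (Matrix (Fin d) (Fin d) ℝ) :=
    ({h | ∀ i j, |h i j| ≤ R'} ∩ {h | |h.det| = V}) ∩ {h | HasNu h ν} with h𝒦
  have hcpt : IsCompact 𝒦 := by
    refine ((isCompact_box R').inter_right ?_).inter_right (isClosed_hasNu ν)
    exact isClosed_eq (continuous_abs.comp continuous_det') continuous_const
  have hloc : ∀ h₀ ∈ 𝒦, ∃ m : Fin d × Fin d → (Fin d → ℤ), ∃ W ∈ 𝓝 h₀,
      (∀ p, m p ≠ 0) ∧ (∀ h ∈ W, ∀ p, |FF h (iR (m p))| < T) ∧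
      ∀ h ∈ W, ∀ h' ∈ W, (∀ p ∈ PP i₀, FF h (iR (m p)) = FF h' (iR (m p))) →
        ∃ a : Fin d → ℝ, (∀ i, 1 / 3 < a i ∧ a i < 3) ∧ h' = diagonal a * h := by
    intro h₀ hh₀
    have hdet : |h₀.det| = V := hh₀.1.2
    have hdet0 : h₀.det ≠ 0 := by
      intro h0
      rw [h0, abs_zero] at hdet
      exact hV.ne hdet
    obtain ⟨m, hm, U, hU, hUd⟩ := determine2 i₀ (div_pos hν (pow_pos hr0 (d - 1))) hdet0 hr0
      (hvec h₀ hdet hh₀.2)
    have hev : ∀ᶠ h in 𝓝 h₀, ∀ p, |FF h (iR (m p))| < T := by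
      refine Filter.eventually_all.2 fun p => ?_
      exact ((continuous_abs.comp (continuous_FF (iR (m p)))).tendsto h₀).eventually
        (gt_mem_nhds (hm p).2)
    refine ⟨m, U ∩ {h | ∀ p, |FF h (iR (m p))| < T}, Filter.inter_mem hU hev,
      fun p => (hm p).1, fun h hh => hh.2, fun h hh h' hh' => hUd h hh.1 h' hh'.1⟩
  choose! m W hW hm0 hmT hWd using hloc
  obtain ⟨t, ht𝒦, htcov⟩ := hcpt.elim_nhds_subcover W hW
  -- bounds
  set M : ℝ := ∑ x ∈ t, ∑ p, ∑ j, |(m x p j : ℝ)| with hM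
  have hM0 : 0 ≤ M := Finset.sum_nonneg fun _ _ => Finset.sum_nonneg fun _ _ =>
    Finset.sum_nonneg fun _ _ => abs_nonneg _
  have hMe : ∀ x ∈ t, ∀ p j, |(m x p j : ℝ)| ≤ M := by
    intro x hx p j
    refine (Finset.single_le_sum (f := fun j => |(m x p j : ℝ)|) (fun _ _ => abs_nonneg _)
      (Finset.mem_univ j)).trans ?_
    refine (Finset.single_le_sum (f := fun p => ∑ j, |(m x p j : ℝ)|)
      (fun _ _ => Finset.sum_nonneg fun _ _ => abs_nonneg _) (Finset.mem_univ p)).trans ?_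
    exact Finset.single_le_sum (f := fun x => ∑ p, ∑ j, |(m x p j : ℝ)|)
      (fun _ _ => Finset.sum_nonneg fun _ _ => Finset.sum_nonneg fun _ _ => abs_nonneg _) hx
  set B : ℝ := 1 + ∑ i, |Θ i| with hB
  have hB0 : 0 < B := by
    have : 0 ≤ ∑ i, |Θ i| := Finset.sum_nonneg fun _ _ => abs_nonneg _
    linarith
  have hBe : ∀ i, |Θ i| ≤ B := by
    intro i
    have := Finset.single_le_sum (f := fun i => |Θ i|) (fun _ _ => abs_nonneg _)
      (Finset.mem_univ i)
    linarith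
  set C₀ : ℝ := d ^ 2 * (R' * M) + 1 with hC₀
  have hR'0 : 0 ≤ R' := le_max_right _ _
  have hC₀0 : 0 < C₀ := by positivity
  refine ⟨1 / (2 * B * (t.card + 1)), by positivity, C₀ ^ 2 + 1, by positivity, ?_⟩
  intro g hgV hnu G hG N hN hlt
  have hG0 : 0 ≤ G := (abs_nonneg _).trans (hG i₀ i₀)
  have hg : g.det ≠ 0 := by
    intro h0
    rw [h0, abs_zero] at hgV
    exact hV.ne hgV
  set C : ℝ := C₀ * (1 + G) with hCdef
  have hC0 : 0 < C := by positivity
  -- the points of the orbit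
  set a : ℕ → Fin d → ℝ := fun n i => Real.exp (n * Θ i) with ha
  have ha0 : ∀ n i, 0 < a n i := fun n i => Real.exp_pos _
  have ha1 : ∀ n, ∏ i, a n i = 1 := by
    intro n
    simp only [ha]
    rw [← Real.exp_sum, ← Finset.mul_sum, hΘsum, mul_zero, Real.exp_zero]
  have hxn : ∀ n, ∃ γ : Matrix (Fin d) (Fin d) ℤ, IsUnit γ.det ∧
      diagonal (a n) * g * zR γ ∈ 𝒦 := by
    intro n
    have h1 : diagonal (a n) * g ∈ Orb g := by
      refine ⟨a n, 1, ha0 n, ha1 n, by simp, ?_⟩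
      rw [zR_one, Matrix.mul_one]
    obtain ⟨γ, hγ, hγR⟩ := hR _ ((abs_det_orb h1).trans hgV)
      (hasNu_closure hnu (subset_closure h1))
    have h2 : diagonal (a n) * g * zR γ ∈ Orb g := ⟨a n, γ, ha0 n, ha1 n, hγ, rfl⟩
    exact ⟨γ, hγ, ⟨fun i j => (hγR i j).trans (le_max_left _ _), (abs_det_orb h2).trans hgV⟩,
      hasNu_closure hnu (subset_closure h2)⟩
  choose γ hγ hγ𝒦 using hxn
  set y : ℕ → Matrix (Fin d) (Fin d) ℝ := fun n => diagonal (a n) * g * zR (γ n) with hy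
  have hxt : ∀ n, ∃ x ∈ t, y n ∈ W x := by
    intro n
    have := htcov (hγ𝒦 n)
    rw [Set.mem_iUnion₂] at this
    obtain ⟨x, hx, hx2⟩ := this
    exact ⟨x, hx, hx2⟩
  choose x hxt hxW using hxt
  have hval : ∀ n p, FF (y n) (iR (m (x n) p)) = FF g (iR (γ n *ᵥ m (x n) p)) :=
    fun n p => FF_orb (ha1 n) g (γ n) _
  have hbd : ∀ n p i, |((γ n *ᵥ m (x n) p) i : ℝ)| ≤ C * Real.exp (n * B) := by
    intro n p i
    refine gamma_bound hg R' M hR'0 hM0 G hG (a n) (γ n) (m (x n) p) (Real.exp (n * B)) (ha0 n)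
      (fun i => ?_) (hγ𝒦 n).1.1 (hMe _ (hxt n) p) i
    simp only [ha]
    rw [← Real.exp_neg, Real.exp_le_exp]
    have h1 := (abs_le.1 (hBe i)).1
    have h2 : (0 : ℝ) ≤ n := Nat.cast_nonneg n
    nlinarith
  have hne : ∀ n p, γ n *ᵥ m (x n) p ≠ 0 := by
    intro n p h0
    have h1 := hm0 _ (ht𝒦 _ (hxt n)) p
    apply h1
    have h2 : (γ n)⁻¹ *ᵥ (γ n *ᵥ m (x n) p) = m (x n) p := by
      rw [mulVec_mulVec, Matrix.nonsing_inv_mul _ (hγ n), one_mulVec]
    rw [← h2, h0, mulVec_zero]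
  -- the constants
  have hNR : C ^ 2 + 1 ≤ N := by
    have h1 : C ^ 2 + 1 ≤ (C₀ ^ 2 + 1) * (1 + G) ^ 2 := by
      rw [hCdef, mul_pow]
      nlinarith
    exact h1.trans hN
  have hN0 : (0 : ℝ) < N := by nlinarith [sq_nonneg C]
  have hlogN : 0 ≤ Real.log N := Real.log_nonneg (by nlinarith [sq_nonneg C])
  have hlogC : 2 * Real.log C ≤ Real.log N := by
    rw [show (2 : ℝ) * Real.log C = Real.log (C ^ 2) by rw [Real.log_pow]; norm_num]
    exact Real.log_le_log (by positivity) (by linarith)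
  set K : ℕ := ⌊Real.log N / (2 * B)⌋₊ with hK
  have hKN : ∀ n, n ≤ K → C * Real.exp (n * B) ≤ N := by
    intro n hn
    have h1 : (n : ℝ) ≤ Real.log N / (2 * B) :=
      le_trans (by exact_mod_cast hn) (Nat.floor_le (by positivity))
    rw [le_div_iff₀ (by positivity)] at h1
    calc C * Real.exp (n * B) = Real.exp (Real.log C) * Real.exp (n * B) := by
          rw [Real.exp_log hC0]
      _ = Real.exp (Real.log C + n * B) := (Real.exp_add _ _).symm
      _ ≤ Real.exp (Real.log N) := by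
          rw [Real.exp_le_exp]
          linarith
      _ = N := Real.exp_log hN0
  -- colours
  set VF : Finset ℝ := (finite_VN g T N).toFinset with hVF
  have hVcard : VF.card = (VN g T N).ncard := by
    rw [hVF, Set.ncard_eq_toFinset_card _ (finite_VN g T N)]
  set S : Finset (Matrix (Fin d) (Fin d) ℝ × (PP i₀ → ℝ)) :=
    t ×ˢ Fintype.piFinset (fun _ : PP i₀ => VF) with hS
  have hScard : S.card = t.card * VF.card ^ (d ^ 2 - d + 1) := by
    rw [hS, Finset.card_product, Fintype.card_piFinset, Finset.prod_const, Finset.card_univ,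
      Fintype.card_coe, card_PP]
  have hlt2 : S.card < (Finset.range (K + 1)).card := by
    rw [Finset.card_range, hScard, hVcard]
    have h1 : (t.card : ℝ) * ((VN g T N).ncard : ℝ) ^ (d ^ 2 - d + 1) < K + 1 := by
      have h2 : Real.log N / (2 * B) < K + 1 := Nat.lt_floor_add_one _
      refine lt_of_le_of_lt ?_ h2
      have h3 : (t.card : ℝ) * ((VN g T N).ncard : ℝ) ^ (d ^ 2 - d + 1) ≤
          t.card * (1 / (2 * B * (t.card + 1)) * Real.log N) :=
        mul_le_mul_of_nonneg_left hlt.le (Nat.cast_nonneg _)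
      refine h3.trans ?_
      have h4 : (t.card : ℝ) * (1 / (2 * B * (t.card + 1)) * Real.log N) =
          (t.card / (t.card + 1)) * (Real.log N / (2 * B)) := by
        field_simp
      rw [h4]
      refine mul_le_of_le_one_left (by positivity) ?_
      rw [div_le_one (by positivity)]
      linarith
    exact_mod_cast h1
  obtain ⟨n, hn, n', hn', hnn, hcol⟩ := Finset.exists_ne_map_eq_of_card_lt_of_maps_to hlt2
    (f := fun n => (x n, fun p : PP i₀ => FF (y n) (iR (m (x n) p)))) (by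
      intro n hn
      rw [Finset.mem_coe, hS, Finset.mem_product]
      refine ⟨hxt n, ?_⟩
      rw [Fintype.mem_piFinset]
      intro p
      simp only
      rw [hVF, Set.Finite.mem_toFinset]
      refine ⟨γ n *ᵥ m (x n) p, hne n p, fun i => ?_, (hval n p).symm, ?_⟩
      · have h1 := (hbd n p i).trans (hKN n (by
          have := Finset.mem_range.1 hn
          omega))
        exact_mod_cast h1
      · exact hmT _ (ht𝒦 _ (hxt n)) _ (hxW n) p)
  rw [Prod.mk.injEq] at hcol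
  obtain ⟨hxx, hcol⟩ := hcol
  obtain ⟨b, hb, hbe⟩ := hWd _ (ht𝒦 _ (hxt n)) (y n) (hxW n) (y n') (by rw [hxx]; exact hxW n')
    (fun p hp => by
      have h1 := congrFun hcol ⟨p, hp⟩
      simp only at h1
      rw [h1, hxx])
  -- the automorph
  refine ⟨γ n' * (γ n)⁻¹, fun i => b i * Real.exp (((n : ℝ) - n') * Θ i), ?_, ?_⟩
  · intro i j hij
    by_contra hne
    simp only at hij
    have hbi := hb i
    have hbj := hb j
    have hbi0 : 0 < b i := by linarith
    have hbj0 : 0 < b j := by linarith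
    have h1 := congrArg Real.log hij
    rw [Real.log_mul hbi0.ne' (Real.exp_pos _).ne', Real.log_mul hbj0.ne' (Real.exp_pos _).ne',
      Real.log_exp, Real.log_exp] at h1
    have h2 : ((n : ℝ) - n') * (Θ i - Θ j) = Real.log (b j) - Real.log (b i) := by linarith
    have h3 : Real.log 9 ≤ |((n : ℝ) - n') * (Θ i - Θ j)| := by
      rw [abs_mul]
      have h4 : 1 ≤ |(n : ℝ) - n'| := by
        have h5 : (1 : ℤ) ≤ |(n : ℤ) - n'| :=
          Int.one_le_abs (sub_ne_zero.2 (by exact_mod_cast hnn))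
        exact_mod_cast h5
      have h6 := hΘ i j hne
      nlinarith [abs_nonneg (Θ i - Θ j)]
    rw [h2] at h3
    have hl3 : Real.log 9 = 2 * Real.log 3 := by
      rw [show (9 : ℝ) = 3 ^ 2 by norm_num, Real.log_pow]
      norm_num
    have hlb : ∀ z : ℝ, 1 / 3 < z → z < 3 → |Real.log z| < Real.log 3 := by
      intro z hz1 hz2
      rw [abs_lt]
      constructor
      · rw [← Real.log_inv]
        exact Real.log_lt_log (by norm_num) (by rw [← one_div]; exact hz1)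
      · exact Real.log_lt_log (by linarith) hz2
    have h7 := hlb _ hbi.1 hbi.2
    have h8 := hlb _ hbj.1 hbj.2
    have h9 := abs_sub (Real.log (b j)) (Real.log (b i))
    rw [hl3] at h3
    linarith
  · have h1 : diagonal (fun i => (a n' i)⁻¹) * diagonal (a n') =
        (1 : Matrix (Fin d) (Fin d) ℝ) := by
      rw [diagonal_mul_diagonal, ← diagonal_one]
      congr 1
      funext i
      exact inv_mul_cancel₀ (ha0 n' i).ne'
    have h2 : g * zR (γ n') = diagonal (fun i => (a n' i)⁻¹) * (diagonal b * y n) := by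
      rw [← hbe]
      simp only [hy]
      rw [Matrix.mul_assoc (diagonal (a n')), ← Matrix.mul_assoc, h1, Matrix.one_mul]
    rw [zR_mul, ← Matrix.mul_assoc, h2]
    simp only [hy]
    have h3 : diagonal (fun i => (a n' i)⁻¹) * (diagonal b * (diagonal (a n) * g * zR (γ n))) *
        zR (γ n)⁻¹ = (diagonal (fun i => (a n' i)⁻¹) * diagonal b * diagonal (a n)) * g *
          (zR (γ n) * zR (γ n)⁻¹) := by
      simp only [Matrix.mul_assoc]
    rw [h3, zR_inv (hγ n), Matrix.mul_one, diagonal_mul_diagonal, diagonal_mul_diagonal]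
    congr 2
    funext i
    simp only [ha]
    rw [← Real.exp_neg, mul_right_comm, ← Real.exp_add, mul_comm]
    congr 2
    ring

/-- forms with few small values are proportional to integral forms -/
theorem few_values_propInt (hd : 3 ≤ d) {V ν T : ℝ} (hV : 0 < V) (hν : 0 < ν)
    (hT : (d.factorial : ℝ) * V < (d : ℝ) ^ d * T ∨
      ∀ h : Matrix (Fin d) (Fin d) ℝ, |h.det| = V →
        ∃ m : Fin d → ℤ, m ≠ 0 ∧ |FF h (iR m)| < T) :
    ∃ κ : ℝ, 0 < κ ∧ ∃ C : ℝ, 0 < C ∧ ∀ g : Matrix (Fin d) (Fin d) ℝ, |g.det| = V → HasNu g ν →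
      ∀ G : ℝ, (∀ i j, |g⁻¹ i j| ≤ G) → ∀ N : ℕ, C * (1 + G) ^ 2 ≤ N →
      ((VN g T N).ncard : ℝ) ^ (d ^ 2 - d + 1) < κ * Real.log N → PropInt g := by
  have hT' : ∀ h : Matrix (Fin d) (Fin d) ℝ, |h.det| = V →
      ∃ m : Fin d → ℤ, m ≠ 0 ∧ |FF h (iR m)| < T := by
    rcases hT with hT | hT
    · exact fun h hh => mink_prod (by omega) V T hV hT h hh
    · exact hT
  obtain ⟨κ, hκ, C, hC, h⟩ := few_values (by omega) hV hν hT'
  refine ⟨κ, hκ, C, hC, fun g hgV hnu G hG N hN hlt => ?_⟩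
  have hg : g.det ≠ 0 := by
    intro h0
    rw [h0, abs_zero] at hgV
    exact hV.ne hgV
  have hd0 : 0 < d := by omega
  obtain ⟨δ, c, hc, hδ⟩ := h g hgV hnu G hG N hN hlt
  obtain ⟨K, hfin, hK, s, hs, hmem⟩ := exists_alg_row hg δ c hc hδ ⟨0, hd0⟩
  rcases limit_alg hd hg (subset_closure (mem_orb_self g)) ⟨0, hd0⟩ s hs K hK hmem with
    ⟨x, hx, hx0⟩ | hint | hdense
  · exfalso
    have h1 := hnu x hx
    have h2 : FF g (iR x) = 0 := by
      rw [FF]
      exact Finset.prod_eq_zero (Finset.mem_univ ⟨0, hd0⟩) hx0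
    rw [h2, abs_zero] at h1
    exact absurd h1 (not_le.2 hν)
  · exact hint
  · exfalso
    obtain ⟨x, hx, hx2⟩ := dense_ne hd0 hdense 0 ν hν
    rw [sub_zero] at hx2
    exact absurd (hnu x hx) (not_le.2 hx2)

end Pool.Agent.W777.FV
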